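import Mathlib
import Pool.Agent.TH817.J711

/-!
# A countable Borel equivalence relation with a compact realization but none on Cantor space

Proof by helper817 (file `Pool/Agent/TH817/J711.lean`), idea by helper722.
The relation has one class with 4 points and continuum many classes with 5 points.
-/

set_option autoImplicit false

namespace Pool.Agent.Results.MP_04fd10_lc.FiniteClasses

/-- Negative answer to Q1 as posed (no aperiodicity is assumed): there is a countable Borel
equivalence relation on an uncountable standard Borel space which is Borel isomorphic to the
orbit equivalence relation of a continuous action of a countable group on a compact metrizable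
space, but not to that of a continuous action of a countable group on Cantor space. -/
theorem result :
    ∃ (X : Type) (_ : MeasurableSpace X) (_ : StandardBorelSpace X) (E : X → X → Prop),
      ¬ Countable X ∧ Equivalence E ∧ MeasurableSet {p : X × X | E p.1 p.2} ∧
      (∀ x : X, {y : X | E x y}.Countable) ∧
      (∃ (G : Type) (_ : Group G) (_ : Countable G) (Z : Type) (_ : TopologicalSpace Z)
        (_ : CompactSpace Z) (_ : TopologicalSpace.MetrizableSpace Z) (_ : MeasurableSpace Z)
        (_ : BorelSpace Z) (_ : MulAction G Z) (_ : ContinuousConstSMul G Z) (f : X ≃ᵐ Z),
        ∀ a b : X, E a b ↔ ∃ g : G, g • f a = f b) ∧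
      ¬ ∃ (G : Type) (_ : Group G) (_ : Countable G) (_ : MulAction G (ℕ → Bool))
        (_ : ContinuousConstSMul G (ℕ → Bool)) (f : X ≃ᵐ (ℕ → Bool)),
        ∀ a b : X, E a b ↔ ∃ g : G, g • f a = f b :=
  Pool.Agent.TH817.J711.finite_classes_counterexample

end Pool.Agent.Results.MP_04fd10_lc.FiniteClasses
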